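import Pool.Agent.W2helper71.NW.PC0

/-!
Piece PC2 of the squad of helper59 (S09083): the rotation can be moved into the dodecahedral cell.
-/

set_option autoImplicit false

namespace Pool.Agent.W2helper71.NW

open Matrix
open scoped goldenRatio
open Pool.Agent.W2helper59.NW (RQ PC0 PC2 Sym DC PassQ)

/-- the rotations that map `V` into itself -/
def Gs (V : Set (Fin 3 → ℝ)) : Set (Matrix (Fin 3) (Fin 3) ℝ) :=
  {g | g ∈ Matrix.specialOrthogonalGroup (Fin 3) ℝ ∧ ∀ v ∈ V, g.mulVec v ∈ V}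

theorem Gs_mul {V : Set (Fin 3 → ℝ)} {g h : Matrix (Fin 3) (Fin 3) ℝ} (hg : g ∈ Gs V)
    (hh : h ∈ Gs V) : g * h ∈ Gs V :=
  ⟨mul_mem hg.1 hh.1, fun v hv => by
    rw [← Matrix.mulVec_mulVec]
    exact hg.2 _ (hh.2 v hv)⟩

theorem Gs_one (V : Set (Fin 3 → ℝ)) : (1 : Matrix (Fin 3) (Fin 3) ℝ) ∈ Gs V :=
  ⟨one_mem _, fun v hv => by rwa [Matrix.one_mulVec]⟩

theorem mem_so3 {g : Matrix (Fin 3) (Fin 3) ℝ} (h1 : g * gᵀ = 1) (h2 : g.det = 1) :
    g ∈ Matrix.specialOrthogonalGroup (Fin 3) ℝ := by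
  rw [Matrix.mem_specialOrthogonalGroup_iff, Matrix.mem_orthogonalGroup_iff]
  exact ⟨h1, h2⟩

theorem Gs_compact {V : Set (Fin 3 → ℝ)} (hV : V.Finite) : IsCompact (Gs V) := by
  have hK : IsCompact (Set.pi Set.univ fun _ : Fin 3 => Set.pi Set.univ fun _ : Fin 3 =>
      Set.Icc (-1 : ℝ) 1) :=
    isCompact_univ_pi fun _ => isCompact_univ_pi fun _ => isCompact_Icc
  refine IsCompact.of_isClosed_subset hK ?_ ?_
  · have e : Gs V = {g | g * gᵀ = 1} ∩ {g | g.det = 1} ∩ ⋂ v ∈ V, {g | g.mulVec v ∈ V} := by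
      ext g
      simp only [Gs, Set.mem_ofPred_eq, Set.mem_inter_iff, Set.mem_iInter,
        Matrix.mem_specialOrthogonalGroup_iff, Matrix.mem_orthogonalGroup_iff]
    rw [e]
    refine IsClosed.inter (IsClosed.inter ?_ ?_) ?_
    · exact isClosed_eq (continuous_id.matrix_mul continuous_id.matrix_transpose) continuous_const
    · exact isClosed_eq continuous_id.matrix_det continuous_const
    · refine isClosed_biInter fun v _ => ?_
      exact hV.isClosed.preimage (continuous_id.matrix_mulVec continuous_const)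
  · intro g hg
    have h1 : g * gᵀ = 1 := ((so3_rel hg.1).1).1
    intro i _ j _
    have h2 : (g * gᵀ) i i = 1 := by rw [h1, Matrix.one_apply_eq]
    rw [Matrix.mul_apply, Fin.sum_univ_three] at h2
    simp only [Matrix.transpose_apply] at h2
    have h3 : g i j * g i j ≤ 1 := by
      fin_cases j
      · show g i 0 * g i 0 ≤ 1
        nlinarith [mul_self_nonneg (g i 0), mul_self_nonneg (g i 1), mul_self_nonneg (g i 2)]
      · show g i 1 * g i 1 ≤ 1
        nlinarith [mul_self_nonneg (g i 0), mul_self_nonneg (g i 1), mul_self_nonneg (g i 2)]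
      · show g i 2 * g i 2 ≤ 1
        nlinarith [mul_self_nonneg (g i 0), mul_self_nonneg (g i 1), mul_self_nonneg (g i 2)]
    exact Set.mem_Icc.2 (abs_le.1 (abs_le_one_iff_mul_self_le_one.2 h3))

/-! ### the elements -/

def Dx : Matrix (Fin 3) (Fin 3) ℝ := !![1, 0, 0; 0, -1, 0; 0, 0, -1]
def Dy : Matrix (Fin 3) (Fin 3) ℝ := !![-1, 0, 0; 0, 1, 0; 0, 0, -1]
def Dz : Matrix (Fin 3) (Fin 3) ℝ := !![-1, 0, 0; 0, -1, 0; 0, 0, 1]
def C1 : Matrix (Fin 3) (Fin 3) ℝ := !![0, 1, 0; 0, 0, 1; 1, 0, 0]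
def C2 : Matrix (Fin 3) (Fin 3) ℝ := !![0, 0, 1; 1, 0, 0; 0, 1, 0]
noncomputable def H1 : Matrix (Fin 3) (Fin 3) ℝ :=
  !![(φ - 1) / 2, -φ / 2, 1 / 2; φ / 2, 1 / 2, (φ - 1) / 2; -1 / 2, (φ - 1) / 2, φ / 2]
noncomputable def T1 : Matrix (Fin 3) (Fin 3) ℝ :=
  !![(φ - 1) / 2, φ / 2, -1 / 2; -φ / 2, 1 / 2, (φ - 1) / 2; 1 / 2, (φ - 1) / 2, φ / 2]

theorem phi_sq : φ ^ 2 = φ + 1 := Real.goldenRatio_sq

section elements

variable {V : Set (Fin 3 → ℝ)} (hV : Sym V)
include hV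

theorem sy : ∀ v ∈ V, ![v 0, -v 1, v 2] ∈ V := fun v hv => by
  have h := hV.cyc _ (hV.cyc _ (hV.sx _ (hV.cyc v hv)))
  simpa using h

theorem sz : ∀ v ∈ V, ![v 0, v 1, -v 2] ∈ V := fun v hv => by
  have h := hV.cyc _ (hV.sx _ (hV.cyc _ (hV.cyc v hv)))
  simpa using h

theorem Dx_mem : Dx ∈ Gs V := by
  refine ⟨mem_so3 ?_ ?_, fun v hv => ?_⟩
  · ext i j
    fin_cases i <;> fin_cases j <;> simp [Dx, Matrix.mul_apply, Fin.sum_univ_three]
  · simp [Dx, Matrix.det_fin_three]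
  · have h := sz hV _ (sy hV v hv)
    have e : Dx.mulVec v = ![v 0, -v 1, -v 2] := by
      ext i
      fin_cases i <;> simp [Dx, Matrix.mulVec, dotProduct, Fin.sum_univ_three]
    rw [e]
    simpa using h

theorem Dy_mem : Dy ∈ Gs V := by
  refine ⟨mem_so3 ?_ ?_, fun v hv => ?_⟩
  · ext i j
    fin_cases i <;> fin_cases j <;> simp [Dy, Matrix.mul_apply, Fin.sum_univ_three]
  · simp [Dy, Matrix.det_fin_three]
  · have h := sz hV _ (hV.sx v hv)
    have e : Dy.mulVec v = ![-v 0, v 1, -v 2] := by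
      ext i
      fin_cases i <;> simp [Dy, Matrix.mulVec, dotProduct, Fin.sum_univ_three]
    rw [e]
    simpa using h

theorem Dz_mem : Dz ∈ Gs V := by
  refine ⟨mem_so3 ?_ ?_, fun v hv => ?_⟩
  · ext i j
    fin_cases i <;> fin_cases j <;> simp [Dz, Matrix.mul_apply, Fin.sum_univ_three]
  · simp [Dz, Matrix.det_fin_three]
  · have h := sy hV _ (hV.sx v hv)
    have e : Dz.mulVec v = ![-v 0, -v 1, v 2] := by
      ext i
      fin_cases i <;> simp [Dz, Matrix.mulVec, dotProduct, Fin.sum_univ_three]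
    rw [e]
    simpa using h

theorem C1_mem : C1 ∈ Gs V := by
  refine ⟨mem_so3 ?_ ?_, fun v hv => ?_⟩
  · ext i j
    fin_cases i <;> fin_cases j <;> simp [C1, Matrix.mul_apply, Fin.sum_univ_three]
  · simp [C1, Matrix.det_fin_three]
  · have e : C1.mulVec v = ![v 1, v 2, v 0] := by
      ext i
      fin_cases i <;> simp [C1, Matrix.mulVec, dotProduct, Fin.sum_univ_three]
    rw [e]
    exact hV.cyc v hv

theorem C2_mem : C2 ∈ Gs V := by
  refine ⟨mem_so3 ?_ ?_, fun v hv => ?_⟩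
  · ext i j
    fin_cases i <;> fin_cases j <;> simp [C2, Matrix.mul_apply, Fin.sum_univ_three]
  · simp [C2, Matrix.det_fin_three]
  · have h := hV.cyc _ (hV.cyc v hv)
    have e : C2.mulVec v = ![v 2, v 0, v 1] := by
      ext i
      fin_cases i <;> simp [C2, Matrix.mulVec, dotProduct, Fin.sum_univ_three]
    rw [e]
    simpa using h

theorem H1_mem : H1 ∈ Gs V := by
  have hφ := phi_sq
  refine ⟨mem_so3 ?_ ?_, fun v hv => ?_⟩
  · ext i j
    fin_cases i <;> fin_cases j <;>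
      simp [H1, Matrix.mul_apply, Fin.sum_univ_three] <;> linarith
  · simp [H1, Matrix.det_fin_three]
    nlinarith
  · have h := hV.s3 _ (hV.sx v hv)
    have e : H1.mulVec v = ![-v 0, v 1, v 2] -
        ((-φ * (![-v 0, v 1, v 2] : Fin 3 → ℝ) 0 - (![-v 0, v 1, v 2] : Fin 3 → ℝ) 1 +
          (φ - 1) * (![-v 0, v 1, v 2] : Fin 3 → ℝ) 2) / 2) • ![-φ, -1, φ - 1] := by
      ext i
      fin_cases i
      · simp [H1, Matrix.mulVec, dotProduct, Fin.sum_univ_three]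
        linear_combination (-(v 0) / 2 - v 2 / 2) * hφ
      · simp [H1, Matrix.mulVec, dotProduct, Fin.sum_univ_three]
        ring
      · simp [H1, Matrix.mulVec, dotProduct, Fin.sum_univ_three]
        linear_combination (v 0 / 2 + v 2 / 2) * hφ
    rw [e]
    exact h

theorem T1_mem : T1 ∈ Gs V := by
  have hφ := phi_sq
  refine ⟨mem_so3 ?_ ?_, fun v hv => ?_⟩
  · ext i j
    fin_cases i <;> fin_cases j <;>
      simp [T1, Matrix.mul_apply, Fin.sum_univ_three] <;> linarith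
  · simp [T1, Matrix.det_fin_three]
    nlinarith
  · have h := hV.sx _ (hV.s3 v hv)
    have e : T1.mulVec v = ![-(v - ((-φ * v 0 - v 1 + (φ - 1) * v 2) / 2) • ![-φ, -1, φ - 1]) 0,
        (v - ((-φ * v 0 - v 1 + (φ - 1) * v 2) / 2) • ![-φ, -1, φ - 1]) 1,
        (v - ((-φ * v 0 - v 1 + (φ - 1) * v 2) / 2) • ![-φ, -1, φ - 1]) 2] := by
      ext i
      fin_cases i
      · simp [T1, Matrix.mulVec, dotProduct, Fin.sum_univ_three]
        linear_combination (-(v 0) / 2 + v 2 / 2) * hφ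
      · simp [T1, Matrix.mulVec, dotProduct, Fin.sum_univ_three]
        ring
      · simp [T1, Matrix.mulVec, dotProduct, Fin.sum_univ_three]
        linear_combination (-(v 0) / 2 + v 2 / 2) * hφ
    rw [e]
    exact h

end elements

/-- the matrix of `n R(1,x,y,z)` -/
def MQ (x y z : ℝ) : Matrix (Fin 3) (Fin 3) ℝ :=
  !![1 + x^2 - y^2 - z^2, 2 * (x * y - z), 2 * (x * z + y);
    2 * (x * y + z), 1 - x^2 + y^2 - z^2, 2 * (y * z - x);
    2 * (x * z - y), 2 * (y * z + x), 1 - x^2 - y^2 + z^2]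

theorem RQ_eq (x y z : ℝ) (q : Fin 3 → ℝ) : RQ x y z q = (MQ x y z).mulVec q := by
  ext i
  fin_cases i <;> simp [RQ, MQ, Matrix.mulVec, dotProduct, Fin.sum_univ_three]

theorem bound {L : ℝ} (h1 : (φ - (φ - 1) * L) ^ 2 ≤ 4) (h2 : (φ + (φ - 1) * L) ^ 2 ≤ 4) :
    |L| ≤ φ - 1 := by
  have hφ := phi_sq
  have hp : 0 < φ - 1 := by linarith [Real.one_lt_goldenRatio]
  have h3 : φ - (φ - 1) * L ≤ 2 := by nlinarith
  have h4 : φ + (φ - 1) * L ≤ 2 := by nlinarith
  have h5 : (φ - 1) * (φ - 1) = 2 - φ := by linear_combination hφ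
  rw [abs_le]
  constructor
  · by_contra h
    push Not at h
    nlinarith
  · by_contra h
    push Not at h
    nlinarith

theorem tr_H1 (x y z : ℝ) : (MQ x y z * H1).trace - (3 - x^2 - y^2 - z^2) =
    (φ - (φ - 1) * (y + φ * z)) ^ 2 - 4 := by
  have hφ := phi_sq
  rw [Matrix.trace_fin_three]
  simp only [MQ, H1, Matrix.mul_apply, Fin.sum_univ_three, Matrix.of_apply, Matrix.cons_val',
    Matrix.cons_val_zero, Matrix.cons_val_one, Matrix.cons_val, Matrix.cons_val_fin_one]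
  linear_combination (-(φ^2*z^2 + 2*φ*y*z - φ*z^2 - 2*φ*z + y^2 - 2*y*z - 2*y + z^2 + 1)) * hφ

theorem tr_T1 (x y z : ℝ) : (MQ x y z * T1).trace - (3 - x^2 - y^2 - z^2) =
    (φ + (φ - 1) * (y + φ * z)) ^ 2 - 4 := by
  have hφ := phi_sq
  rw [Matrix.trace_fin_three]
  simp only [MQ, T1, Matrix.mul_apply, Fin.sum_univ_three, Matrix.of_apply, Matrix.cons_val',
    Matrix.cons_val_zero, Matrix.cons_val_one, Matrix.cons_val, Matrix.cons_val_fin_one]
  linear_combination (-(φ^2*z^2 + 2*φ*y*z - φ*z^2 + 2*φ*z + y^2 - 2*y*z + 2*y + z^2 + 1)) * hφ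

/-- conjugation by `Dz` -/
theorem tr_conj_Dz (x y z : ℝ) (H : Matrix (Fin 3) (Fin 3) ℝ) :
    (MQ x y z * (Dz * H * Dz)).trace = (MQ (-x) (-y) z * H).trace := by
  rw [Matrix.trace_fin_three, Matrix.trace_fin_three]
  simp only [MQ, Dz, Matrix.mul_apply, Fin.sum_univ_three, Matrix.of_apply, Matrix.cons_val',
    Matrix.cons_val_zero, Matrix.cons_val_one, Matrix.cons_val, Matrix.cons_val_fin_one]
  ring

/-- conjugation by the cyclic permutation -/
theorem tr_conj_C (x y z : ℝ) (H : Matrix (Fin 3) (Fin 3) ℝ) :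
    (MQ x y z * (C1 * H * C2)).trace = (MQ z x y * H).trace := by
  rw [Matrix.trace_fin_three, Matrix.trace_fin_three]
  simp only [MQ, C1, C2, Matrix.mul_apply, Fin.sum_univ_three, Matrix.of_apply, Matrix.cons_val',
    Matrix.cons_val_zero, Matrix.cons_val_one, Matrix.cons_val, Matrix.cons_val_fin_one]
  ring

/-- maximality of the trace -/
def Mx (V : Set (Fin 3 → ℝ)) (x y z : ℝ) : Prop :=
  ∀ g ∈ Gs V, (MQ x y z * g).trace ≤ 3 - x^2 - y^2 - z^2

theorem Mx_abs {V : Set (Fin 3 → ℝ)} (hV : Sym V) {x y z : ℝ} (h : Mx V x y z) :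
    |y + φ * z| ≤ φ - 1 := by
  have h1 := h _ (H1_mem hV)
  have h2 := h _ (T1_mem hV)
  have h3 := tr_H1 x y z
  have h4 := tr_T1 x y z
  exact bound (by linarith) (by linarith)

theorem Mx_Dz {V : Set (Fin 3 → ℝ)} (hV : Sym V) {x y z : ℝ} (h : Mx V x y z) :
    Mx V (-x) (-y) z := by
  intro g hg
  have h1 := h _ (Gs_mul (Gs_mul (Dz_mem hV) hg) (Dz_mem hV))
  rw [tr_conj_Dz] at h1
  linarith [neg_sq x, neg_sq y]

theorem Mx_C {V : Set (Fin 3 → ℝ)} (hV : Sym V) {x y z : ℝ} (h : Mx V x y z) :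
    Mx V z x y := by
  intro g hg
  have h1 := h _ (Gs_mul (Gs_mul (C1_mem hV) hg) (C2_mem hV))
  rw [tr_conj_C] at h1
  linarith

theorem Mx_DC {V : Set (Fin 3 → ℝ)} (hV : Sym V) {x y z : ℝ} (h : Mx V x y z) : DC x y z := by
  have e : ∀ a b : ℝ, |a - b| = |-a + b| := fun a b => by
    rw [← abs_neg]
    congr 1
    ring
  refine ⟨Mx_abs hV h, ?_, ?_, ?_, ?_, ?_⟩
  · rw [e]
    exact Mx_abs hV (Mx_Dz hV h)
  · exact Mx_abs hV (Mx_C hV (Mx_C hV h))
  · rw [e]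
    exact Mx_abs hV (Mx_Dz hV (Mx_C hV (Mx_C hV h)))
  · exact Mx_abs hV (Mx_C hV h)
  · rw [e]
    exact Mx_abs hV (Mx_Dz hV (Mx_C hV h))

theorem pc2 : PC2 := by
  intro V hV c s t R hR hP
  obtain ⟨h, hh, hmax⟩ := (Gs_compact hV.fin).exists_isMaxOn ⟨1, Gs_one V⟩
    (f := fun g => (R * g).trace)
    ((continuous_const.matrix_mul continuous_id).matrix_trace.continuousOn)
  obtain ⟨R', hR'⟩ : ∃ R', R' = R * h := ⟨_, rfl⟩
  have hRs : R' ∈ Matrix.specialOrthogonalGroup (Fin 3) ℝ := by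
    rw [hR']
    exact mul_mem hR hh.1
  have hm : ∀ g ∈ Gs V, (R' * g).trace ≤ R'.trace := by
    intro g hg
    have h1 := isMaxOn_iff.1 hmax _ (Gs_mul hh hg)
    rw [hR', mul_assoc]
    exact h1
  have htr : 0 ≤ R'.trace := by
    have h1 := hm _ (Dx_mem hV)
    have h2 := hm _ (Dy_mem hV)
    have h3 := hm _ (Dz_mem hV)
    have h4 : (R' * Dx).trace + (R' * Dy).trace + (R' * Dz).trace + R'.trace = 0 := by
      rw [Matrix.trace_fin_three, Matrix.trace_fin_three, Matrix.trace_fin_three,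
        Matrix.trace_fin_three]
      simp only [Dx, Dy, Dz, Matrix.mul_apply, Fin.sum_univ_three, Matrix.of_apply,
        Matrix.cons_val', Matrix.cons_val_zero, Matrix.cons_val_one, Matrix.cons_val,
        Matrix.cons_val_fin_one]
      ring
    linarith
  obtain ⟨x, y, z, hq, ht⟩ := pc0 R' hRs (by linarith)
  obtain ⟨n, hn⟩ : ∃ n, n = 1 + x ^ 2 + y ^ 2 + z ^ 2 := ⟨_, rfl⟩
  have hn0 : 0 < n := by
    rw [hn]
    positivity
  rw [← hn] at hq ht
  have hMR : MQ x y z = n • R' := by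
    rw [Matrix.ext_iff_mulVec]
    intro q
    rw [← RQ_eq, hq, Matrix.smul_mulVec]
  refine ⟨x, y, z, Mx_DC hV fun g hg => ?_, fun w hw q hqV => ?_⟩
  · have h1 := hm g hg
    rw [hMR, Matrix.smul_mul, Matrix.trace_smul, smul_eq_mul]
    have h2 := mul_le_mul_of_nonneg_left h1 hn0.le
    refine h2.trans (le_of_eq ?_)
    rw [ht]
    field_simp
    rw [hn]
    ring
  · obtain ⟨v, hv, h1⟩ := hP w hw (h.mulVec q) (hh.2 q hqV)
    refine ⟨v, hv, ?_⟩
    rw [hq, smul_dotProduct, smul_eq_mul, ← hn]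
    have h2 : R'.mulVec q = R.mulVec (h.mulVec q) := by rw [hR', Matrix.mulVec_mulVec]
    rw [h2]
    have h3 := mul_le_mul_of_nonneg_left h1 hn0.le
    linarith

end Pool.Agent.W2helper71.NW
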