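import Pool.Agent.W2helper59.NW.Stm

/-!
Piece PC0 of the squad of helper59 (S09083): every rotation with trace `> -1` is `R(1,x,y,z)`.
-/

set_option autoImplicit false

namespace Pool.Agent.W2helper71.NW

open Matrix
open Pool.Agent.W2helper59.NW (RQ PC0)

/-- the relations between the entries of a rotation -/
theorem so3_rel {R : Matrix (Fin 3) (Fin 3) ℝ} (hR : R ∈ Matrix.specialOrthogonalGroup (Fin 3) ℝ) :
    (R * Rᵀ = 1 ∧ Rᵀ * R = 1) ∧ R.adjugate = Rᵀ := by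
  rw [Matrix.mem_specialOrthogonalGroup_iff, Matrix.mem_orthogonalGroup_iff] at hR
  obtain ⟨h1, h2⟩ := hR
  have h1' : R * Rᵀ = 1 := h1
  have h3 : Rᵀ * R = 1 := mul_eq_one_comm.1 h1'
  refine ⟨⟨h1', h3⟩, ?_⟩
  calc R.adjugate = R.adjugate * (R * Rᵀ) := by rw [h1', mul_one]
    _ = (R.adjugate * R) * Rᵀ := by rw [mul_assoc]
    _ = Rᵀ := by rw [Matrix.adjugate_mul, h2, one_smul, one_mul]

/-- the identities for the entries -/
theorem cayley {a b c d e f g k l : ℝ}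
    (r11 : d * d + e * e + f * f = 1) (r22 : g * g + k * k + l * l = 1)
    (r00 : a * a + b * b + c * c = 1)
    (r01 : a * d + b * e + c * f = 0) (r02 : a * g + b * k + c * l = 0)
    (r12 : d * g + e * k + f * l = 0)
    (c00 : a * a + d * d + g * g = 1) (c11 : b * b + e * e + k * k = 1)
    (c22 : c * c + f * f + l * l = 1)
    (c01 : a * b + d * e + g * k = 0) (c02 : a * c + d * f + g * l = 0)
    (c12 : b * c + e * f + k * l = 0)
    (a00 : e * l - f * k = a) (a11 : a * l - c * g = e) (a22 : a * e - b * d = l)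
    (a01 : -(b * l) + c * k = d) (a10 : -(d * l) + f * g = b) (a02 : b * f - c * e = g)
    (a20 : d * k - e * g = c) (a12 : -(a * f) + c * d = k) (a21 : -(a * k) + b * g = f)
    {T x y z : ℝ} (hT : T = 1 + a + e + l) (hT0 : 0 < T) (hx : x = (k - f) / T)
    (hy : y = (c - g) / T) (hz : z = (d - b) / T) :
    1 + x ^ 2 + y ^ 2 + z ^ 2 = 4 / T ∧
    1 + x ^ 2 - y ^ 2 - z ^ 2 = 4 / T * a ∧ 2 * (x * y - z) = 4 / T * b ∧
    2 * (x * z + y) = 4 / T * c ∧ 2 * (x * y + z) = 4 / T * d ∧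
    1 - x ^ 2 + y ^ 2 - z ^ 2 = 4 / T * e ∧ 2 * (y * z - x) = 4 / T * f ∧
    2 * (x * z - y) = 4 / T * g ∧ 2 * (y * z + x) = 4 / T * k ∧
    1 - x ^ 2 - y ^ 2 + z ^ 2 = 4 / T * l := by
  have hX : (k - f) ^ 2 = 1 + a ^ 2 - e ^ 2 - l ^ 2 - 2 * (e * l - a) := by
    linear_combination r11 + r22 - c00 + 2 * a00
  have hY : (c - g) ^ 2 = 1 + e ^ 2 - a ^ 2 - l ^ 2 - 2 * (a * l - e) := by
    linear_combination r00 + r22 - c11 + 2 * a11
  have hZ : (d - b) ^ 2 = 1 + l ^ 2 - a ^ 2 - e ^ 2 - 2 * (a * e - l) := by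
    linear_combination r00 + r11 - c22 + 2 * a22
  have hXY : (k - f) * (c - g) = T * (b + d) := by
    rw [hT]
    linear_combination a01 + a10 - c01 - r01
  have hXZ : (k - f) * (d - b) = T * (c + g) := by
    rw [hT]
    linear_combination a20 + a02 - r02 - c02
  have hYZ : (c - g) * (d - b) = T * (f + k) := by
    rw [hT]
    linear_combination a12 + a21 - c12 - r12
  have hT' : T ≠ 0 := hT0.ne'
  have hX' : x ^ 2 = (k - f) ^ 2 / T ^ 2 := by rw [hx, div_pow]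
  have hY' : y ^ 2 = (c - g) ^ 2 / T ^ 2 := by rw [hy, div_pow]
  have hZ' : z ^ 2 = (d - b) ^ 2 / T ^ 2 := by rw [hz, div_pow]
  have hxy : x * y = (b + d) / T := by
    rw [hx, hy, div_mul_div_comm, hXY]
    field_simp
  have hxz : x * z = (c + g) / T := by
    rw [hx, hz, div_mul_div_comm, hXZ]
    field_simp
  have hyz : y * z = (f + k) / T := by
    rw [hy, hz, div_mul_div_comm, hYZ]
    field_simp
  refine ⟨?_, ?_, ?_, ?_, ?_, ?_, ?_, ?_, ?_, ?_⟩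
  · rw [hX', hY', hZ', hX, hY, hZ]
    field_simp
    rw [hT]
    ring
  · rw [hX', hY', hZ', hX, hY, hZ]
    field_simp
    rw [hT]
    ring
  · rw [hxy, hz]
    ring
  · rw [hxz, hy]
    ring
  · rw [hxy, hz]
    ring
  · rw [hX', hY', hZ', hX, hY, hZ]
    field_simp
    rw [hT]
    ring
  · rw [hyz, hx]
    ring
  · rw [hxz, hy]
    ring
  · rw [hyz, hx]
    ring
  · rw [hX', hY', hZ', hX, hY, hZ]
    field_simp
    rw [hT]
    ring

theorem pc0 : PC0 := by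
  intro R hR htr
  obtain ⟨⟨h1, h2⟩, h3⟩ := so3_rel hR
  have e1 : ∀ i j, (R * Rᵀ) i j = (1 : Matrix (Fin 3) (Fin 3) ℝ) i j := fun i j => by rw [h1]
  have e2 : ∀ i j, (Rᵀ * R) i j = (1 : Matrix (Fin 3) (Fin 3) ℝ) i j := fun i j => by rw [h2]
  have e3 : ∀ i j, R.adjugate i j = Rᵀ i j := fun i j => by rw [h3]
  rw [Matrix.trace_fin_three] at htr ⊢
  have r00 := e1 0 0
  have r11 := e1 1 1
  have r22 := e1 2 2
  have r01 := e1 0 1
  have r02 := e1 0 2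
  have r12 := e1 1 2
  have c00 := e2 0 0
  have c11 := e2 1 1
  have c22 := e2 2 2
  have c01 := e2 0 1
  have c02 := e2 0 2
  have c12 := e2 1 2
  have a00 := e3 0 0
  have a11 := e3 1 1
  have a22 := e3 2 2
  have a01 := e3 0 1
  have a10 := e3 1 0
  have a02 := e3 0 2
  have a20 := e3 2 0
  have a12 := e3 1 2
  have a21 := e3 2 1
  clear e1 e2 e3 h1 h2 h3 hR
  simp [Matrix.mul_apply, Fin.sum_univ_three, Matrix.adjugate_fin_three] at r00 r11 r22 r01 r02 r12 c00 c11 c22 c01 c02 c12 a00 a11 a22 a01 a10 a02 a20 a12 a21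
  obtain ⟨T, hT⟩ : ∃ T, T = 1 + R 0 0 + R 1 1 + R 2 2 := ⟨_, rfl⟩
  have hT0 : 0 < T := by linarith
  obtain ⟨x, hx⟩ : ∃ x, x = (R 2 1 - R 1 2) / T := ⟨_, rfl⟩
  obtain ⟨y, hy⟩ : ∃ y, y = (R 0 2 - R 2 0) / T := ⟨_, rfl⟩
  obtain ⟨z, hz⟩ : ∃ z, z = (R 1 0 - R 0 1) / T := ⟨_, rfl⟩
  obtain ⟨hn, m00, m01, m02, m10, m11, m12, m20, m21, m22⟩ := cayley r11 r22 r00 r01 r02 r12 c00 c11
    c22 c01 c02 c12 a00 a11 a22 a01 a10 a02 a20 a12 a21 hT hT0 hx hy hz
  refine ⟨x, y, z, fun q => ?_, ?_⟩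
  · rw [hn]
    ext i
    fin_cases i
    · show (1 + x ^ 2 - y ^ 2 - z ^ 2) * q 0 + 2 * (x * y - z) * q 1 + 2 * (x * z + y) * q 2 =
        4 / T * (R 0 ⬝ᵥ q)
      rw [m00, m01, m02, dotProduct, Fin.sum_univ_three]
      ring
    · show 2 * (x * y + z) * q 0 + (1 - x ^ 2 + y ^ 2 - z ^ 2) * q 1 + 2 * (y * z - x) * q 2 =
        4 / T * (R 1 ⬝ᵥ q)
      rw [m10, m11, m12, dotProduct, Fin.sum_univ_three]
      ring
    · show 2 * (x * z - y) * q 0 + 2 * (y * z + x) * q 1 + (1 - x ^ 2 - y ^ 2 + z ^ 2) * q 2 =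
        4 / T * (R 2 ⬝ᵥ q)
      rw [m20, m21, m22, dotProduct, Fin.sum_univ_three]
      ring
  · rw [hn, div_div_cancel₀ (by norm_num)]
    linarith

end Pool.Agent.W2helper71.NW
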